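import Mathlib
import Pool.Agent.Lib.MP_3c53dc_co.Dual

/-!
# A 0-1 matrix realizable by curves whose transpose is not realizable by curves
-/

namespace Pool.Agent.Results.MP_3c53dc_co.Disproof

/-- The matrix `A` is realizable by curves in the plane `ℝ × ℝ`: there are distinct points `p j`
(one for each column) and simple arcs `c i : [0,1] → ℝ × ℝ` (one for each row) such that `p j` lies
on the arc `c i` when `A i j = 1` and does not lie on it when `A i j = 0`, and any two of the arcs
have at most one common point. -/
def RealizableByCurves {m n : ℕ} (A : Matrix (Fin m) (Fin n) ℕ) : Prop :=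
  ∃ (p : Fin n → ℝ × ℝ) (c : Fin m → unitInterval → ℝ × ℝ),
    Function.Injective p ∧
    (∀ i, Continuous (c i) ∧ Function.Injective (c i)) ∧
    (∀ i j, (A i j = 1 → p j ∈ Set.range (c i)) ∧ (A i j = 0 → p j ∉ Set.range (c i))) ∧
    (∀ i i', i ≠ i' → (Set.range (c i) ∩ Set.range (c i')).Subsingleton)

open Pool.Agent.Lib.MP_3c53dc_co

open Classical in
/-- The matrix of a relation, with rows and columns renumbered. -/
noncomputable def mat {I J : Type} [Fintype I] [Fintype J] (A : I → J → Prop) :
    Matrix (Fin (Fintype.card I)) (Fin (Fintype.card J)) ℕ :=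
  fun i j => if A ((Fintype.equivFin I).symm i) ((Fintype.equivFin J).symm j) then 1 else 0

theorem mat_transpose {I J : Type} [Fintype I] [Fintype J] (A : I → J → Prop) :
    (mat A).transpose = mat (fun j i => A i j) := by
  ext i j
  simp [mat, Matrix.transpose]

theorem realizable_mat {I J : Type} [Fintype I] [Fintype J] (A : I → J → Prop) :
    RealizableByCurves (mat A) ↔ RealizableIn (ℝ × ℝ) A := by
  classical
  constructor
  · rintro ⟨p, c, h1, h2, h3, h4⟩
    refine ⟨fun j => p (Fintype.equivFin J j), fun i => c (Fintype.equivFin I i),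
      h1.comp (Equiv.injective _), fun i => h2 _, fun i j => ?_, fun i i' hii => h4 _ _ ?_⟩
    · have := h3 (Fintype.equivFin I i) (Fintype.equivFin J j)
      simp only [mat, Equiv.symm_apply_apply] at this
      by_cases hA : A i j
      · simp only [hA, if_true] at this
        exact ⟨fun _ => hA, fun _ => this.1 trivial⟩
      · simp only [hA, if_false] at this
        exact ⟨fun h => absurd h (this.2 trivial), fun h => absurd h hA⟩
    · exact fun e => hii ((Equiv.injective _) e)
  · rintro ⟨p, c, h1, h2, h3, h4⟩
    refine ⟨fun j => p ((Fintype.equivFin J).symm j), fun i => c ((Fintype.equivFin I).symm i),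
      h1.comp (Equiv.injective _), fun i => h2 _, fun i j => ?_, fun i i' hii => h4 _ _ ?_⟩
    · simp only [mat]
      rw [h3]
      by_cases hA : A ((Fintype.equivFin I).symm i) ((Fintype.equivFin J).symm j)
      · simp [hA]
      · simp [hA]
    · exact fun e => hii ((Equiv.injective _) e)

/-- There is a 0-1 matrix which is realizable by curves although its transpose is not. -/
theorem result : ∃ (m n : ℕ) (A : Matrix (Fin m) (Fin n) ℕ),
    (∀ i j, A i j = 0 ∨ A i j = 1) ∧
    RealizableByCurves A ∧ ¬ RealizableByCurves A.transpose := by
  classical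
  obtain ⟨σ, hσ⟩ := exists_not_dual 513 (by norm_num)
  refine ⟨_, _, mat (Inc σ), ?_, (realizable_mat _).mpr (primal σ), ?_⟩
  · intro i j
    simp only [mat]
    split_ifs
    · exact Or.inr rfl
    · exact Or.inl rfl
  · rw [mat_transpose, realizable_mat]
    intro h
    apply hσ
    exact h.map Complex.equivRealProdCLM.symm Complex.equivRealProdCLM.symm.continuous
      Complex.equivRealProdCLM.symm.injective

end Pool.Agent.Results.MP_3c53dc_co.Disproof
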